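import Pool.Agent.MWKP.Stmts

/-!
Row IND of MWKP: insertion of `x^n`, type D.
-/

set_option autoImplicit false

namespace Pool.Agent.MWKP.H24

open Pool.Agent.Helper14_MV Pool.Agent.Helper2_MV Pool.Agent.MWK Pool.Agent.MWKP

theorem pw_one (n x : ℕ) : pw n [x] = List.replicate n x := by
  unfold pw
  induction n with
  | zero => rfl
  | succ n ih =>
    rw [List.replicate_succ, List.flatten_cons, ih, List.replicate_succ]
    rfl

theorem ipt_eq {w P Q : List ℕ} {y : ℕ} (hw : w = P ++ y :: Q) (hP : P = pre w y) (x N : ℕ) :
    ipt w y x N = P ++ List.replicate N x ++ (y :: Q) := by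
  unfold ipt
  rw [← hP]
  congr 1
  conv_lhs => rw [hw]
  exact List.drop_left

theorem ind (hKdd : KddStmt) : IndStmt := by
  intro n θ hK m e w x y he hem hD hy hx hDy hDx hCX
  obtain ⟨Q, hQ⟩ := mem_split hy
  generalize hP : pre w y = P at hQ hx
  have hiw := ipt_eq hQ hP.symm x n
  rw [hiw]
  -- dead letters
  have dead : ∀ (A B : List ℕ), 2 ≤ A.count x → RR θ (A ++ B) (A ++ List.replicate n x ++ B) := by
    intro A B hA
    have h := hKdd n θ hK A [] (List.replicate n x) B (by simp) (by
      intro l hl
      rw [List.eq_of_mem_replicate hl]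
      exact hA) (by
      intro l
      rw [List.count_replicate]
      split_ifs
      · exact (Nat.modEq_zero_iff_dvd.2 dvd_rfl).symm
      · exact Nat.ModEq.refl _)
    rw [List.append_nil] at h
    exact h
  by_cases h2 : 2 ≤ P.count x
  · have h := dead P (y :: Q) h2
    rw [← hQ] at h
    exact h
  have hyP : y ∉ P := by
    rw [← hP]
    exact not_mem_pre w y
  obtain ⟨P1, P2, hP12, hx1⟩ := List.eq_append_cons_of_mem hx
  have hx2 : x ∉ P2 := by
    intro h
    have h3 := List.count_pos_iff.2 h
    rw [hP12, List.count_append, List.count_cons_self] at h2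
    omega
  obtain ⟨q, R0, hqR, hq, hR0⟩ := T.cut (Dp m w) (P ++ [y]) Q
  have hw : w = (P ++ y :: q) ++ R0 := by
    rw [hQ, hqR]
    simp
  have hxd : 2 ≤ (P ++ y :: q).count x := by
    rcases hR0 with h | ⟨t, R', h, ht, htD⟩
    · rw [h, List.append_nil] at hw
      rw [← hw]
      exact hCX.1
    · have ht' : t ∉ P ++ y :: q := by
        intro h3
        apply ht
        simpa using h3
      have hpre : pre w t = P ++ y :: q := by
        rw [hw, h]
        exact pre_split ht' _
      have h3 := hCX.2 t htD (by rw [hpre]; simp)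
      rw [hpre] at h3
      exact h3
  obtain ⟨qs, R, hlen, hR, hOk, hlast⟩ := T.seg m w (P ++ y :: q) R0 (y :: q) hw (by
    intro z hz
    rcases List.mem_cons.1 hz with rfl | hz'
    · exact Or.inr ⟨by simp, hDy⟩
    · by_cases hzA : z ∈ P ++ [y]
      · left
        have h3 := List.count_pos_iff.2 hzA
        have h4 := List.count_pos_iff.2 hz'
        have h5 : (P ++ y :: q).count z = (P ++ [y]).count z + q.count z := by
          rw [← List.count_append]
          simp
        omega
      · exact Or.inr ⟨by simp [hz'], hq z hz' hzA⟩)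
  have hPe : P1 ++ [x] ++ P2 ++ (y :: q) = P ++ y :: q := by
    rw [hP12]
    simp
  have h1 := hD P1 [x] P2 (y :: q) qs R hlen (by
    rw [hPe]
    exact hOk) (by
    intro hme l hl
    rw [hPe]
    by_cases hl1 : l ∈ P1 ++ [x]
    · have h2 := List.count_pos_iff.2 hl1
      have h3 := List.count_pos_iff.2 hl
      have h4 : (P ++ y :: q ++ (qs.take (m + 2 - e)).flatten).count l =
          (P1 ++ [x]).count l + P2.count l + (y :: q).count l +
            ((qs.take (m + 2 - e)).flatten).count l := by
        rw [← hPe, List.count_append, List.count_append, List.count_append]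
      rw [h4]
      omega
    · obtain ⟨P3, P4, h2, h3⟩ := List.eq_append_cons_of_mem hl
      have hlx : l ≠ x := fun h => hl1 (by simp [h])
      have hlP : l ∉ P1 := fun h => hl1 (by simp [h])
      have hpre : pre w l = P1 ++ x :: P3 := by
        have h4 : w = (P1 ++ x :: P3) ++ l :: (P4 ++ y :: Q) := by
          rw [hQ, hP12, h2]
          simp
        rw [h4]
        refine pre_split ?_ _
        intro h5
        rcases List.mem_append.1 h5 with h6 | h6
        · exact hlP h6
        · rcases List.mem_cons.1 h6 with h7 | h7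
          · exact hlx h7
          · exact h3 h7
      have hcount : (pre w l).count x = 1 := by
        have h4 : x ∉ P3 := fun h => hx2 (by rw [h2]; simp [h])
        rw [hpre, List.count_append, List.count_cons_self, List.count_eq_zero_of_not_mem hx1,
          List.count_eq_zero_of_not_mem h4]
      have hDp : ¬ Dp (e - 1) w l := by
        intro h4
        have h5 := Dp.step h4 hcount
        rw [Nat.sub_add_cancel he] at h5
        exact hDx h5
      have hlA : l ∈ P ++ y :: q := by
        rw [hP12]
        simp [hl]
      have h5 := hlast (m + 1 - e) hme l hlA (by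
        rw [show m - (m + 1 - e) = e - 1 by omega]
        exact hDp)
      rw [show m + 1 - e + 1 = m + 2 - e by omega] at h5
      exact h5)
  rw [pw_one] at h1
  have h3 := dead (P ++ y :: q) R0 hxd
  have e1 : P1 ++ [x] ++ P2 ++ List.replicate n x ++ (y :: q) ++ qs.flatten ++ R =
      P ++ List.replicate n x ++ (y :: Q) := by
    rw [hqR, hR, hP12]
    simp
  have e2 : P1 ++ [x] ++ P2 ++ (y :: q) ++ List.replicate n x ++ qs.flatten ++ R =
      (P ++ y :: q) ++ List.replicate n x ++ R0 := by
    rw [hR, hP12]
    simp
  rw [e1, e2] at h1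
  rw [← hw] at h3
  exact θ.trans h3 (RR.symm h1)

end Pool.Agent.MWKP.H24
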